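import Pool.Agent.Q5.RF.Span
import Pool.Agent.Q5.HR.Crit

/-! Wide families: their members without automorphisms suffice. -/

set_option autoImplicit false
set_option linter.unusedSectionVars false

namespace Pool.Agent.Q5.RW

open NumberField Polynomial Module Pool.Agent.W353.NF Pool.Agent.W401.Cheb Pool.Agent.Q5.BR
open Pool.Agent.Q5.VL (IsLaw)
open Pool.Agent.Q5.RF (Rigid InSpan span_isLaw exists_rigid_relation)

section
variable {K : Type} [Field K] [NumberField K]
  {P : ∀ (F : Type) [Field F] [NumberField F] [Algebra K F], ℤ → Prop}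

/-- laws are invariant under isomorphisms -/
theorem isLaw_iso (hP : IsLaw P) {X X' : Type} [Field X] [NumberField X] [Algebra K X] [Field X']
    [NumberField X'] [Algebra K X'] (e : X ≃ₐ[K] X') {t : ℤ} (h : P X' t) : P X t := by
  let _ : Algebra X X' := (e : X →+* X').toAlgebra
  have hst : IsScalarTower K X X' := IsScalarTower.of_algebraMap_eq fun x => (e.commutes x).symm
  let e' : X' ≃ₐ[X] X := AlgEquiv.ofRingEquiv (f := e.symm.toRingEquiv) (fun x => by
    change e.symm (e x) = x
    exact e.symm_apply_apply x)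
  let Y : Unit → Ext X := fun _ => Ext.mk X'
  let _ : ∀ j, Algebra K (Y j).F := fun _ => (inferInstance : Algebra K X')
  have hst' : ∀ j, IsScalarTower K X (Y j).F := fun _ => hst
  have h1 := hP.step X Unit Y (fun _ => 1) 1 (fun σ => by
    rw [Finset.univ_unique, Finset.sum_singleton, one_mul]
    change (fixn X X' σ : ℤ) = 1
    rw [HR.fixn_congr e' σ, BR.fixn_self, Nat.cast_one]) t (fun _ => h)
  rwa [one_mul] at h1

/-- the extensions without automorphisms of `F` suffice for `F` -/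
theorem one_of_rigid (hP : IsLaw P) (F : Type) [Field F] [NumberField F] [Algebra K F]
    (h : ∀ (X : Type) [Field X] [NumberField X] [Algebra K X] [Algebra F X] [IsScalarTower K F X],
      Rigid X → P X 1) : P F 1 := by
  refine VL.one_of_gcd hP F (D := {p : ℕ | p.Prime ∧ finrank ℚ F + 1 < p}) ?_ ?_
  · intro g hg
    obtain ⟨p, hp1, hp⟩ := Nat.exists_infinite_primes (finrank ℚ F + 2)
    obtain ⟨q, hq1, hq⟩ := Nat.exists_infinite_primes (p + 1)
    have h1 : g ∣ p := hg p ⟨hp, by omega⟩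
    have h2 : g ∣ q := hg q ⟨hq, by omega⟩
    have h3 : Nat.Coprime p q := (Nat.coprime_primes hp hq).2 (by omega)
    exact Nat.eq_one_of_dvd_coprimes h3 h1 h2
  · rintro p ⟨hp, hlt⟩
    have hpf : Fact p.Prime := ⟨hp⟩
    obtain ⟨ι, _, Y, nn, hdeg, hrig, hrel⟩ := exists_rigid_relation F p hlt
    let _ : ∀ j, Algebra K (Y j).F := fun j =>
      ((algebraMap F (Y j).F).comp (algebraMap K F)).toAlgebra
    have : ∀ j, IsScalarTower K F (Y j).F := fun j =>
      IsScalarTower.of_algebraMap_eq fun x => rfl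
    have h1 := hP.step F ι Y nn p hrel 1 (fun j => h (Y j).F (hrig j))
    rwa [mul_one] at h1

/-- an extension of an intermediate field inside the algebraic closure -/
theorem exists_inside (F : IntermediateField K (AlgebraicClosure K)) [NumberField F] (X : Type)
    [Field X] [NumberField X] [Algebra K X] [Algebra F X] [IsScalarTower K F X] :
    ∃ X' : IntermediateField K (AlgebraicClosure K), F ≤ X' ∧ FiniteDimensional K X' ∧
      Nonempty (X ≃ₐ[K] X') := by
  have hfd : FiniteDimensional F X := RF.fd_of_nf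
  have hfdK : FiniteDimensional K X := RF.fd_of_nf
  let φ : X →ₐ[F] AlgebraicClosure K := IsAlgClosed.lift
  let ψ : X →ₐ[K] AlgebraicClosure K := φ.restrictScalars K
  refine ⟨ψ.fieldRange, fun x hx => ?_, ?_, ⟨?_⟩⟩
  · refine ⟨algebraMap F X ⟨x, hx⟩, ?_⟩
    change φ (algebraMap F X ⟨x, hx⟩) = x
    rw [φ.commutes]
    rfl
  · exact LinearEquiv.finiteDimensional (AlgEquiv.ofInjectiveField ψ).toLinearEquiv
  · exact AlgEquiv.ofInjectiveField ψ

/-- **The members without automorphisms of a wide family suffice.** -/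
theorem wide_rigid_law {𝓕 : Set (IntermediateField K (AlgebraicClosure K))} (hF : HR.Wide 𝓕) :
    ∃ m : ℕ, 0 < m ∧
      ∀ P : (∀ (F : Type) [Field F] [NumberField F] [Algebra K F], ℤ → Prop), IsLaw P →
      (∀ F ∈ 𝓕, Rigid F → ∀ [NumberField F], P F 1) → P K m := by
  obtain ⟨m, hm, hlaw⟩ := VL.wide_law hF
  refine ⟨m, hm, fun P hP h => ?_⟩
  have h1 := hlaw P hP 1 (fun F hFm => by
    intro hnf
    refine one_of_rigid hP F fun X _ _ _ _ _ hX => ?_
    obtain ⟨X', hle, hfd, ⟨e⟩⟩ := exists_inside F X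
    have hnf' : NumberField X' := NumberField.of_module_finite K _
    refine isLaw_iso hP e (h X' (hF.2.1 F hFm X' hfd hle) ?_)
    intro τ x
    have h2 := hX ((e.toRingEquiv.trans τ).trans e.symm.toRingEquiv) (e.symm x)
    change e.symm (τ (e (e.symm x))) = e.symm x at h2
    rw [e.apply_symm_apply] at h2
    exact e.symm.injective h2)
  rwa [mul_one] at h1

/-- the unconditional relation -/
theorem wide_rigid_relation {𝓕 : Set (IntermediateField K (AlgebraicClosure K))}
    (hF : HR.Wide 𝓕) : ∃ m : ℕ, 0 < m ∧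
      ∃ (k : ℕ) (X : Fin k → IntermediateField K (AlgebraicClosure K)) (n : Fin k → ℤ),
        (∀ j, X j ∈ 𝓕 ∧ Rigid (X j)) ∧
        ∀ σ : GK K, ∑ j, n j * (fixn K (X j) σ : ℤ) = m := by
  obtain ⟨m, hm, h⟩ := wide_rigid_law hF
  refine ⟨m, hm, ?_⟩
  have h1 := h _ (span_isLaw (K := K) (fun X => ∃ X' ∈ 𝓕, Rigid X' ∧ Nonempty (X.F ≃ₐ[K] X')))
    (fun F hFm hr hnf => ⟨Unit, inferInstance, fun _ => @Ext.mk K _ _ F _ hnf _, fun _ => 1,
      fun _ => ⟨F, hFm, hr, ⟨AlgEquiv.refl⟩⟩, fun σ => by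
        rw [Finset.univ_unique, Finset.sum_singleton]⟩)
  obtain ⟨ι, _, X, n, hX, hrel⟩ := h1
  choose X' hX' hr he using hX
  let e := Fintype.equivFin ι
  refine ⟨Fintype.card ι, fun j => X' (e.symm j), fun j => n (e.symm j),
    fun j => ⟨hX' _, hr _⟩, fun σ => ?_⟩
  have h2 := hrel σ
  rw [BR.fixn_self, Nat.cast_one, mul_one] at h2
  rw [← h2, ← Equiv.sum_comp e.symm]
  refine Finset.sum_congr rfl fun j _ => ?_
  obtain ⟨e'⟩ := he (e.symm j)
  rw [HR.fixn_congr e' σ]

end

end Pool.Agent.Q5.RW
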